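import Mathlib

set_option autoImplicit false

namespace Pool.Agent.Results.MP_ddf116_an.Counterexample

open Set

section defs
variable {X : Type} [AddCommGroup X] [Module ℝ X] [TopologicalSpace X]

/-- The operator with graph T is monotone. -/
def IsMonotoneOp (T : Set (X × (X →L[ℝ] ℝ))) : Prop :=
  ∀ p ∈ T, ∀ q ∈ T, 0 ≤ p.2 (p.1 - q.1) - q.2 (p.1 - q.1)

/-- The domain D(T). -/
def dom (T : Set (X × (X →L[ℝ] ℝ))) : Set X := {x | ∃ f, (x, f) ∈ T}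

/-- (x, f) is monotonically related to the restriction of T to V. -/
def Related (T : Set (X × (X →L[ℝ] ℝ))) (V : Set X) (x : X) (f : X →L[ℝ] ℝ) : Prop :=
  ∀ q ∈ T, q.1 ∈ V → 0 ≤ f (x - q.1) - q.2 (x - q.1)

/-- V locates T. -/
def Locates (V : Set X) (T : Set (X × (X →L[ℝ] ℝ))) : Prop :=
  ∀ x ∈ V, ∀ f : X →L[ℝ] ℝ, Related T V x f → x ∈ dom T

end defs

theorem result :
    ¬ ∀ (X : Type) [AddCommGroup X] [Module ℝ X] [TopologicalSpace X] [IsTopologicalAddGroup X]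
      [ContinuousSMul ℝ X] [LocallyConvexSpace ℝ X] [T2Space X]
      (T : Set (X × (X →L[ℝ] ℝ))) (V : Set X),
      IsMonotoneOp T → IsOpen V → Convex ℝ V → (V ∩ dom T).Nonempty →
      Locates (closure V) T → Locates V T := by
  intro h
  let e : (ℝ × ℝ) →L[ℝ] ℝ := ContinuousLinearMap.snd ℝ ℝ ℝ
  let T : Set ((ℝ × ℝ) × ((ℝ × ℝ) →L[ℝ] ℝ)) :=
    {p | p.1.2 = 0 ∧ ((p.1.1 < 1 ∧ p.2 = 0) ∨ (p.1.1 = 1 ∧ ∃ r : ℝ, p.2 = r • e))}
  let V : Set (ℝ × ℝ) := {x | x.1 < 1}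
  have hT : ∀ p ∈ T, ∀ v : ℝ × ℝ, v.2 = 0 → p.2 v = 0 := by
    rintro p ⟨-, ⟨-, h⟩ | ⟨-, r, h⟩⟩ v hv <;> simp [h, e, hv]
  have hcl : closure V ⊆ {x | x.1 ≤ 1} :=
    closure_minimal (fun x (hx : x.1 < 1) => hx.le) (isClosed_le continuous_fst continuous_const)
  have hb : ((1 : ℝ), (0 : ℝ)) ∈ closure V := by
    have : V = Iio 1 ×ˢ univ := by ext x; simp [V]
    rw [this, closure_prod_eq]; simp
  have key := h (ℝ × ℝ) T V (by
      intro p hp q hq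
      have hv : (p.1 - q.1).2 = 0 := by simp [hp.1, hq.1]
      rw [hT p hp _ hv, hT q hq _ hv]; simp)
    (isOpen_lt continuous_fst continuous_const)
    (convex_halfSpace_lt (LinearMap.fst ℝ ℝ ℝ).isLinear 1)
    ⟨(0, 0), by simp [V], 0, by simp [T]⟩
    (by
      intro x hx f hf
      have h2 : x.2 = 0 := by
        by_contra h2
        have := hf ((1, 0), ((f (x - (1, 0)) + 1) / x.2) • e) ⟨rfl, Or.inr ⟨rfl, _, rfl⟩⟩ hb
        simp only [ContinuousLinearMap.smul_apply, e, ContinuousLinearMap.coe_snd', Prod.snd_sub,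
          sub_zero, smul_eq_mul] at this
        rw [div_mul_cancel₀ _ h2] at this
        linarith
      rcases (show x.1 ≤ 1 from hcl hx).lt_or_eq with h1 | h1
      · exact ⟨0, h2, Or.inl ⟨h1, rfl⟩⟩
      · exact ⟨0, h2, Or.inr ⟨h1, 0, by simp⟩⟩)
  obtain ⟨f, hf, -⟩ := key (0, 1) (by simp [V]) e (by
    rintro q ⟨h1, ⟨-, h2⟩ | ⟨h2, -⟩⟩ hq
    · simp [h2, e, h1]
    · exact absurd h2 (ne_of_lt hq))
  simp at hf

end Pool.Agent.Results.MP_ddf116_an.Counterexample
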